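import Pool.Agent.H4.TA.Targets

/-!
# Row BIN: quotients of binomial coefficients
-/

set_option autoImplicit false

open Finset Pool.Agent.H43.TC Pool.Agent.H4.TA

namespace Pool.Agent.H55.TA

theorem pf_BIN : T_BIN := by
  intro N K r hK
  induction r with
  | zero =>
    intro _ _
    simp
  | succ r ih =>
    intro hr hN
    have h0 := ih (by omega) hN
    have hN' : (0 : ℝ) < N := by exact_mod_cast hN
    have hKN : (K : ℝ) ≤ N := by exact_mod_cast hK
    have hfac : (0 : ℝ) ≤ 1 - K / N := by
      have : (K : ℝ) / N ≤ 1 := (div_le_one hN').2 hKN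
      linarith
    have hpos : (0 : ℝ) ≤ (1 - K / N : ℝ) ^ r * N.choose K := by positivity
    rcases le_or_gt (N - r) K with hc | hc
    · rcases Nat.eq_or_lt_of_le hc with hc | hc
      · -- `N - (r + 1) < K`
        have h1 : (N - (r + 1)).choose K = 0 := Nat.choose_eq_zero_of_lt (by omega)
        rw [h1, pow_succ]
        have : (0 : ℝ) ≤ (1 - K / N : ℝ) ^ r * (1 - K / N) * N.choose K := by positivity
        simpa using this
      · have h1 : (N - (r + 1)).choose K = 0 := Nat.choose_eq_zero_of_lt (by omega)
        rw [h1, pow_succ]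
        have : (0 : ℝ) ≤ (1 - K / N : ℝ) ^ r * (1 - K / N) * N.choose K := by positivity
        simpa using this
    · obtain ⟨M, hM⟩ : ∃ M, N - r = M + 1 := ⟨N - r - 1, by omega⟩
      have e1 : N - (r + 1) = M := by omega
      have hid := Nat.choose_mul_succ_eq M K
      have hMr : (M : ℝ) + 1 = N - r := by
        have : M + 1 + r = N := by omega
        have h2 : ((M + 1 + r : ℕ) : ℝ) = N := by exact_mod_cast this
        push_cast at h2
        linarith
      have hsub : ((M + 1 - K : ℕ) : ℝ) = M + 1 - K := by
        rw [Nat.cast_sub (by omega)]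
        push_cast
        ring
      have hid' : (M.choose K : ℝ) * (M + 1) = ((M + 1).choose K : ℝ) * (M + 1 - K) := by
        have := congrArg (fun n : ℕ => (n : ℝ)) hid
        push_cast at this
        rw [hsub] at this
        exact this
      have hM1 : (0 : ℝ) < M + 1 := by positivity
      rw [e1]
      rw [hM] at h0
      have h3 : (M.choose K : ℝ) = ((M + 1).choose K : ℝ) * ((M + 1 - K) / (M + 1)) := by
        field_simp
        linarith
      have h4 : ((M : ℝ) + 1 - K) / (M + 1) ≤ 1 - K / N := by
        rw [sub_div, div_self hM1.ne']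
        have hle : (M : ℝ) + 1 ≤ N := by
          rw [hMr]
          have : (0 : ℝ) ≤ r := Nat.cast_nonneg r
          linarith
        have hK0 : (0 : ℝ) ≤ K := Nat.cast_nonneg K
        have : (K : ℝ) / N ≤ K / (M + 1) := div_le_div_of_nonneg_left hK0 hM1 hle
        linarith
      rw [h3, pow_succ]
      calc ((M + 1).choose K : ℝ) * ((M + 1 - K) / (M + 1))
          ≤ ((M + 1).choose K : ℝ) * (1 - K / N) := by gcongr
        _ ≤ ((1 - K / N : ℝ) ^ r * N.choose K) * (1 - K / N) := by gcongr
        _ = (1 - K / N : ℝ) ^ r * (1 - K / N) * N.choose K := by ring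

end Pool.Agent.H55.TA
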